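import Pool.Agent.Lib.MP_fdd6ec_al.BMain

set_option autoImplicit false

namespace Pool.Agent.Results.MP_fdd6ec_al.MetricCayley

open Pool.Agent.Lib.MP_fdd6ec_al Pool.Agent.Lib.MP_fdd6ec_al.B

universe u

/-- There is a finitely presented group whose Morse boundary (computed in the metric Cayley graph
of any finite generating set) has at least three points and which is not acylindrically
hyperbolic. -/
theorem result : ∃ (G : Type) (_ : Group G), Group.IsFinitelyPresented G ∧
    (∀ (S : Set G) (hS : Subgroup.closure S = ⊤), S.Finite →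
      3 ≤ ENat.card (MorseBoundary (vtx S hS 1))) ∧
    ¬ AcylindricallyHyperbolic.{u} G := by
  refine ⟨GG, inferInstance, ⟨5, phi, phi_surj, rels, rels.finite_toSet, phi_ker.symm⟩,
    fun S hS hf => three_le hS hf, ?_⟩
  rintro ⟨X, _, ρ, hX, hac, o, ho⟩
  obtain ⟨δ, hδ⟩ := four_point hX
  obtain ⟨B, hB⟩ := U.bounded_of_snormal ρ (geo_of hX) hδ hac AA AA_comm (lp_mem 0 1)
    (lp_mem 0 ii) uv_inj AA_snormal o
  rw [limitSet_empty ρ o hB] at ho
  simp at ho

end Pool.Agent.Results.MP_fdd6ec_al.MetricCayley
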